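import Pool.Agent.H66Z.PR.Main

set_option autoImplicit false

open MeasureTheory Pool.Agent.H66Z.PR

universe u w

/-- A bounded continuous Parseval frame whose range does stable phase retrieval in `L_1` and `L_2`
can be sampled at `m ≤ D n` points to give a frame doing `κ`-stable phase retrieval. -/
theorem Pool.Agent.Results.MP_07ff6b_an.ALinearSampling.result
    (𝕜 : Type*) [RCLike 𝕜] (C β : ℝ) (hC : 0 < C) (hβ : 0 < β) :
    ∃ D κ : ℝ, 0 < D ∧ 0 < κ ∧ ∀ n : ℕ, ∃ m : ℕ, (m : ℝ) ≤ D * n ∧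
      ∀ (H : Type u) [NormedAddCommGroup H] [InnerProductSpace 𝕜 H] [FiniteDimensional 𝕜 H],
        Module.finrank 𝕜 H = n →
      ∀ (Ω : Type w) [MeasurableSpace Ω] (μ : Measure Ω) [IsProbabilityMeasure μ] (v : Ω → H),
        IsParseval 𝕜 μ v → StableLp 1 μ (Set.range (ana 𝕜 v)) C →
        StableLp 2 μ (Set.range (ana 𝕜 v)) C → (∀ t, ‖v t‖ ≤ β * Real.sqrt n) →
        ∃ s : Fin m → Ω,
          Submodule.span 𝕜 (Set.range fun j => (((Real.sqrt m)⁻¹ : ℝ) : 𝕜) • v (s j)) = ⊤ ∧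
          StableFin 𝕜 (fun j => (((Real.sqrt m)⁻¹ : ℝ) : 𝕜) • v (s j)) κ :=
  main 𝕜 C β hC hβ
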